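import Pool.Agent.Lib.MP_8a3537_gt.ROW.XTC

/-!
# `WAR` is a local property of the group

If every finite subset of `G` is contained in a subgroup `H` with `WAR (R[H]) d`, then
`WAR (R[G]) d`.
-/

set_option autoImplicit false

namespace Pool.Agent.Lib.MP8a3537.ROW

open Matrix Pool.Agent.Lib.MP8a3537.UV Pool.Agent.Lib.MP8a3537.AU
open Pool.Agent.Lib.MP8a3537.UO (ext)

namespace LCWM

open XTM

variable {R G : Type} [Ring R] [Group G] {H : Subgroup G}

omit [Group G] in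
/-- The group elements which occur in a matrix. -/
theorem exists_supp {m n : Type} [Fintype m] [Fintype n] (M : Matrix m n (MonoidAlgebra R G)) :
    ∃ E : Finset G, ∀ i j g, (M i j).coeff g ≠ 0 → g ∈ E := by
  classical
  refine ⟨Finset.univ.biUnion fun ij : m × n => (M ij.1 ij.2).coeff.support, fun i j g hg => ?_⟩
  rw [Finset.mem_biUnion]
  exact ⟨(i, j), Finset.mem_univ _, Finsupp.mem_support_iff.2 hg⟩

theorem exists_ext {m n : Type} (M : Matrix m n (MonoidAlgebra R G))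
    (h : ∀ i j g, (M i j).coeff g ≠ 0 → g ∈ H) :
    ∃ M0 : Matrix m n (MonoidAlgebra R H), M = ext M0 := by
  refine ⟨M.map (lres H 1), ?_⟩
  ext1 i j
  exact (emb_lres_one _ (h i j)).symm

theorem coh_xt {m n r : ℕ} {M : Matrix (Fin m) (Fin n) (MonoidAlgebra R H)}
    {K : Matrix (Fin n) (Fin r) (MonoidAlgebra R H)}
    (h : ∀ x : Fin n → MonoidAlgebra R H, M *ᵥ x = 0 ↔ ∃ y, x = K *ᵥ y)
    (x : Fin n → MonoidAlgebra R G) : ext M *ᵥ x = 0 ↔ ∃ y, x = ext K *ᵥ y := by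
  constructor
  · intro hx
    refine lfv K x fun t => (h _).1 ?_
    rw [← lv_mulVec, hx, lv_zero]
  · rintro ⟨y, rfl⟩
    refine lv_eq_zero (H := H) _ fun t => ?_
    rw [lv_mulVec, lv_mulVec]
    exact (h _).2 ⟨_, rfl⟩

theorem rng_iff {m n : Type} [Fintype m] [Fintype n] {M : Matrix m n (MonoidAlgebra R H)}
    {x : m → MonoidAlgebra R G} : x ∈ rng (ext (G := G) M) ↔ ∀ t, lv H t x ∈ rng M := by
  constructor
  · rintro ⟨y, rfl⟩ t
    exact ⟨lv H t y, lv_mulVec M t y⟩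
  · intro h
    exact lfv M x h

theorem dual_d {R G : Type} [Ring R] [StarRing R] [Group G] {H : Subgroup G}
    (P : FC (MonoidAlgebra R H)) : (xt G P).dual.d = (xt G P.dual).d := XTM.ext_star P.d

theorem bd_dual_iff {R G : Type} [Ring R] [StarRing R] [Group G] {H : Subgroup G}
    {P : FC (MonoidAlgebra R H)} {k : ℤ} {x : P.I → MonoidAlgebra R G} :
    x ∈ (xt G P).dual.Bd k ↔ ∀ t, lv H t x ∈ P.dual.Bd k := by
  have h : x ∈ (xt G P).dual.Bd k ↔ x ∈ (xt G P.dual).Bd k := by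
    constructor
    · rintro ⟨a, y, hy⟩
      exact ⟨a, y, hy.trans (congrArg (· *ᵥ y) (dual_d P))⟩
    · rintro ⟨a, y, hy⟩
      exact ⟨a, y, hy.trans (congrArg (· *ᵥ y) (dual_d P).symm)⟩
  exact h.trans bd_iff

theorem cy_dual_iff {R G : Type} [Ring R] [StarRing R] [Group G] {H : Subgroup G}
    {P : FC (MonoidAlgebra R H)} {k : ℤ} {x : P.I → MonoidAlgebra R G} :
    x ∈ (xt G P).dual.Cy k ↔ ∀ t, lv H t x ∈ P.dual.Cy k := by
  have h : x ∈ (xt G P).dual.Cy k ↔ x ∈ (xt G P.dual).Cy k := by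
    constructor
    · rintro ⟨a, hy⟩
      exact ⟨a, (congrArg (· *ᵥ x) (dual_d P)).symm.trans hy⟩
    · rintro ⟨a, hy⟩
      exact ⟨a, (congrArg (· *ᵥ x) (dual_d P)).trans hy⟩
  exact h.trans cy_iff

end LCWM

open XTM LCWM in
/-- **Locality of `WAR`.** -/
theorem war_local (R G : Type) [Ring R] [StarRing R] [Group G] (d : ℕ)
    (h : ∀ E : Finset G, ∃ H : Subgroup G, (∀ g ∈ E, g ∈ H) ∧ WAB.WAR (MonoidAlgebra R H) d) :
    WAB.WAR (MonoidAlgebra R G) d where
  coh m n M := by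
    obtain ⟨E, hE⟩ := exists_supp M
    obtain ⟨H, hH, hW⟩ := h E
    obtain ⟨M0, rfl⟩ := exists_ext (H := H) M fun i j g hg => hH g (hE i j g hg)
    obtain ⟨r, K, hK⟩ := hW.coh m n M0
    exact ⟨r, ext K, coh_xt hK⟩
  ffr m n M := by
    obtain ⟨E, hE⟩ := exists_supp M
    obtain ⟨H, hH, hW⟩ := h E
    obtain ⟨M0, rfl⟩ := exists_ext (H := H) M fun i j g hg => hH g (hE i j g hg)
    obtain ⟨C, g, hC⟩ := hW.ffr m n M0
    exact ⟨xt G C, ext g, resolves hC (fun x => rng_iff) fun x =>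
      ⟨fun _ _ => Submodule.mem_top, fun _ => Submodule.mem_top⟩⟩
  injdim P hP := by
    obtain ⟨E, hE⟩ := exists_supp P.d
    obtain ⟨H, hH, hW⟩ := h E
    obtain ⟨P0, rfl⟩ := exists_xt (H := H) P fun i j g hg => hH g (hE i j g hg)
    rw [dual_xt]
    exact exAbove (hW.injdim P0 (isRes_of hP))
  wa P hP c := by
    obtain ⟨E, hE⟩ := exists_supp P.d
    obtain ⟨H, hH, hW⟩ := h E
    obtain ⟨P0, rfl⟩ := exists_xt (H := H) P fun i j g hg => hH g (hE i j g hg)
    obtain ⟨Q, g, hQ, hQd⟩ := hW.wa P0 (isRes_of hP) c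
    refine ⟨xt G Q, ext g, ?_, ?_⟩
    · exact resolves hQ (fun x => bd_dual_iff) fun x => cy_dual_iff
    · rw [dual_xt]
      exact exBelow hQd

/-- It is enough to consider the finitely generated subgroups. -/
theorem war_of_fg (R G : Type) [Ring R] [StarRing R] [Group G] (d : ℕ)
    (h : ∀ H : Subgroup G, H.FG → WAB.WAR (MonoidAlgebra R H) d) :
    WAB.WAR (MonoidAlgebra R G) d :=
  war_local R G d fun E =>
    ⟨Subgroup.closure (E : Set G), fun _ hg => Subgroup.subset_closure hg, h _ ⟨E, rfl⟩⟩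

theorem war_mono {S : Type} [Ring S] [StarRing S] {d d' : ℕ} (h : WAB.WAR S d) (hd : d ≤ d') :
    WAB.WAR S d' where
  coh := h.coh
  ffr := h.ffr
  injdim P hP x hx hx0 := h.injdim P hP x (fun i hi => lt_of_le_of_lt (by exact_mod_cast hd)
    (hx i hi)) hx0
  wa := h.wa

end Pool.Agent.Lib.MP8a3537.ROW
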