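import Pool.Agent.Lib.MP_8a3537_gt.WAB.Spec
import Pool.Agent.Lib.MP_8a3537_gt.AU.NOE

/-!
# Auslander regular rings are weakly Auslander regular and coherent
-/

set_option autoImplicit false

namespace Pool.Agent.Lib.MP8a3537.ROW

open Matrix Pool.Agent.Lib.MP8a3537.UV Pool.Agent.Lib.MP8a3537.AU

namespace NOWM

/-- The kernel of a matrix as a right submodule. -/
def ker {S : Type} [Ring S] {m n : Type} [Fintype n] (M : Matrix m n S) :
    Submodule Sᵐᵒᵖ (n → S) where
  carrier := {x | M *ᵥ x = 0}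
  zero_mem' := mulVec_zero _
  add_mem' := by
    intro x y hx hy
    change M *ᵥ (x + y) = 0
    rw [mulVec_add, show M *ᵥ x = 0 from hx, show M *ᵥ y = 0 from hy, add_zero]
  smul_mem' := by
    intro s x hx
    change M *ᵥ (s • x) = 0
    rw [mulVec_smul, show M *ᵥ x = 0 from hx, smul_zero]

end NOWM

open NOWM in
/-- Auslander regular (noetherian) rings satisfy `WAR`. -/
theorem war_of_auslanderRegular (S : Type) [Ring S] [StarRing S] (h : AuslanderRegular S) :
    ∃ d : ℕ, WAB.WAR S d := by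
  obtain ⟨d, hd⟩ := h.injdim
  refine ⟨d, ⟨fun m n M => ?_, h.ffr, hd, fun P hP c => ?_⟩⟩
  · obtain ⟨r, K, hK⟩ := specNOE S (Fin n) h.noeth (ker M)
    refine ⟨r, K, fun x => ?_⟩
    have h1 : x ∈ ker M ↔ x ∈ rng K := by rw [hK]
    exact h1
  · exact h.auslander P hP c (P.dual.Cy c)
      (fun x hx => ⟨hx.1, by obtain ⟨y, rfl⟩ := hx.2; rw [mulVec_mulVec, P.dual.dd, zero_mulVec]⟩)
      le_rfl

end Pool.Agent.Lib.MP8a3537.ROW
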