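import Pool.Agent.Lib.MP_8a3537_gt.ROW.Base
import Pool.Agent.Lib.MP_8a3537_gt.ROW.NOW
import Pool.Agent.Lib.MP_8a3537_gt.ROW.LCW
import Pool.Agent.Lib.MP_8a3537_gt.WAB.Main

/-!
# The theorem for trees with weakly Auslander regular coherent group rings, without hypotheses
-/

set_option autoImplicit false

namespace Pool.Agent.Lib.MP8a3537.ROW

open Matrix Pool.Agent.Lib.MP8a3537.UV

/-- **The theorem**: `longOrdW` without the hypothesis `SpecBTW`. -/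
theorem main (R G V : Type) [Ring R] [StarRing R] [Group G]
    [MulAction G V] (T : SimpleGraph V) (v w : V) (hT : T.IsTree)
    (hact : ∀ (g : G) (x y : V), T.Adj x y → T.Adj (g • x) (g • y))
    (hvw : T.Adj v w) (hinv : ∀ g : G, ¬ (g • v = w ∧ g • w = v))
    (htwo : ∀ g : G, g * g = 1 → (g • v = v ↔ g • w = w)) (k : ℕ)
    (hk : ∀ x y : V, k ≤ T.dist x y → T.dist x y = T.dist x v + 1 + T.dist w y →
      (∃ g : G, g • x = y ∧ g • y = x) → RgW R G x y)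
    (ε : ℤˣ) (n : ℕ) (ψ μ χ : Matrix (Fin n) (Fin n) (MonoidAlgebra R G))
    (hψ : SuppIn {g | g • v = v ∧ g • w ≠ w} ψ) (hμ : SuppIn {g | g • v = w} μ)
    (hχ : SuppIn {g | g • w = w ∧ g • v ≠ v} χ)
    (hnil : IsNilpotent (nu ε (ψ + (ε : ℤ) • ψᴴ) μ (χ + (ε : ℤ) • χᴴ))) :
    StablyHyperbolic ε (UF ψ μ χ) :=
  longOrdW WAB.mBTW R G V T v w hT hact hvw hinv htwo k hk ε n ψ μ χ hψ hμ hχ hnil

end Pool.Agent.Lib.MP8a3537.ROW
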