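import Pool.Agent.Lib.MP_8a3537_gt.ROW.Tree
import Pool.Agent.Lib.MP_8a3537_gt.WAB.Spec

/-!
# The theorem for trees with weakly Auslander regular coherent group rings

`longOrdW`: the theorem of the folder ROK, with `WAR` (`WAB/Defs.lean`) or (FP) for the group rings of
the stabilizers of the long exchanged pairs. The only hypothesis is the base theorem `WAB.SpecBTW`.
-/

set_option autoImplicit false

namespace Pool.Agent.Lib.MP8a3537.ROW

open Matrix Pool.Agent.Lib.MP8a3537.UV Pool.Agent.Lib.MP8a3537.AU Pool.Agent.Lib.MP8a3537.RO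
open Pool.Agent.Lib.MP8a3537.ROK

/-- The group ring of the stabilizer of `x` and `y` is weakly Auslander regular and coherent, or has
the factorization property (FP). -/
def RgW (R G : Type) {V : Type} [Ring R] [StarRing R] [Group G] [MulAction G V] (x y : V) : Prop :=
  (∃ d : ℕ, WAB.WAR (MonoidAlgebra R ↥(MulAction.stabilizer G x ⊓ MulAction.stabilizer G y)) d) ∨
    FP (MonoidAlgebra R ↥(MulAction.stabilizer G x ⊓ MulAction.stabilizer G y))

theorem rgW_symm {R G V : Type} [Ring R] [StarRing R] [Group G] [MulAction G V] {x y : V}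
    (h : RgW R G x y) : RgW R G y x := by
  unfold RgW at h ⊢
  rw [inf_comm (MulAction.stabilizer G y)]
  exact h

theorem se_of_rgW (hBTW : WAB.SpecBTW) {R G V : Type} [Ring R] [StarRing R] [Group G]
    [MulAction G V] (d : V → V → ℕ) {x1 x2 : V} (hR : RgW R G x1 x2) : SE R G d x1 x2 := by
  intro L g Xb Yp Ym P hG h1 h2
  have hL : L = MulAction.stabilizer G x1 ⊓ MulAction.stabilizer G x2 := by
    ext x
    rw [hG.st, Subgroup.mem_inf, MulAction.mem_stabilizer_iff, MulAction.mem_stabilizer_iff]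
  subst hL
  rcases hR with ⟨c, hR⟩ | hR
  · exact hBTW R G _ g _ _ Yp c (BASAux.loc P) hR
  · exact mSBF R G _ g _ _ Yp (BASAux.loc P) hR

/-- **The theorem**, with `WAR` or (FP) for the long exchanged pairs `x`, `y` such that the path from
`x` to `y` passes through `v` and then through `w`. -/
theorem longOrdW (hBTW : WAB.SpecBTW) (R G V : Type) [Ring R] [StarRing R] [Group G]
    [MulAction G V] (T : SimpleGraph V) (v w : V) (hT : T.IsTree)
    (hact : ∀ (g : G) (x y : V), T.Adj x y → T.Adj (g • x) (g • y))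
    (hvw : T.Adj v w) (hinv : ∀ g : G, ¬ (g • v = w ∧ g • w = v))
    (htwo : ∀ g : G, g * g = 1 → (g • v = v ↔ g • w = w)) (k : ℕ)
    (hk : ∀ x y : V, k ≤ T.dist x y → T.dist x y = T.dist x v + 1 + T.dist w y →
      (∃ g : G, g • x = y ∧ g • y = x) → RgW R G x y)
    (ε : ℤˣ) (n : ℕ) (ψ μ χ : Matrix (Fin n) (Fin n) (MonoidAlgebra R G))
    (hψ : SuppIn {g | g • v = v ∧ g • w ≠ w} ψ) (hμ : SuppIn {g | g • v = w} μ)
    (hχ : SuppIn {g | g • w = w ∧ g • v ≠ v} χ)
    (hnil : IsNilpotent (nu ε (ψ + (ε : ℤ) • ψᴴ) μ (χ + (ε : ℤ) • χᴴ))) :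
    StablyHyperbolic ε (UF ψ μ χ) := by
  refine longSE R G V T v w hT hact hvw hinv htwo k ?_ ε n ψ μ χ hψ hμ hχ hnil
  intro x y h1 h2 h3 h4
  apply se_of_rgW hBTW
  rcases hT.dist_eq_dist_add_one_of_adj x hvw with h | h
  · refine rgW_symm (hk y x (by rw [T.dist_comm]; exact h1) ?_ ?_)
    · rw [T.dist_comm (u := y) (v := x), T.dist_comm (u := y) (v := v),
        T.dist_comm (u := w) (v := x)]
      omega
    · obtain ⟨g, g1, g2⟩ := h4
      exact ⟨g, g2, g1⟩
  · exact hk x y h1 (by omega) h4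

end Pool.Agent.Lib.MP8a3537.ROW
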