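import Pool.Agent.Lib.MP_8a3537_gt.ROK.Final

/-!
# The theorem of the folder ROK with an arbitrary sufficient condition for long exchanged pairs

`longSE`: if the statement `SE` of `ROK/Defs.lean` holds for all exchanged pairs at distance at least
`k` the segment of which contains the edge `(v, w)`, then the unitary nilpotent forms of the edge are
stably hyperbolic.
-/

set_option autoImplicit false

namespace Pool.Agent.Lib.MP8a3537.ROW

open Matrix Pool.Agent.Lib.MP8a3537.UV Pool.Agent.Lib.MP8a3537.AU Pool.Agent.Lib.MP8a3537.RO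
open Pool.Agent.Lib.MP8a3537.ROK

namespace TreeM

theorem se_of_btw {R G V : Type} [Ring R] [StarRing R] [Group G] [MulAction G V] {d : V → V → ℕ}
    (hd : TM G d) {k : ℕ} {v w : V}
    (h : ∀ x y : V, k ≤ d x y → FinalAux.Btw d v x y → FinalAux.Btw d w x y →
      (∃ g : G, g • x = y ∧ g • y = x) → SE R G d x y) :
    ∀ (m : ℕ) (x1 x2 : V), FinalAux.Btw d v x1 x2 → FinalAux.Btw d w x1 x2 →
      (∃ g : G, g • x1 = x2 ∧ g • x2 = x1) → k ≤ d x1 x2 + m → SE R G d x1 x2 := by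
  intro m
  induction m with
  | zero =>
    intro x1 x2 b1 b2 hg hk
    exact h x1 x2 hk b1 b2 hg
  | succ m ih =>
    intro x1 x2 b1 b2 _ hk
    refine mSTC R G V d hd _ _ fun f hf => ih x2 (f • x2) (FinalAux.btw_step hd b1 hf.2.1)
      (FinalAux.btw_step hd b2 hf.2.1) ⟨f, rfl, hf.1⟩ ?_
    have h1 : d x1 (f • x2) ≠ 0 := fun h0 => hf.2.2 (((hd.d0 _ _).1 h0).symm)
    have h2 := hf.2.1
    have h3 := hd.cm x1 x2
    omega

end TreeM

/-- **The theorem**, with the statement `SE` for the long exchanged pairs as the hypothesis. -/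
theorem longSE (R G V : Type) [Ring R] [StarRing R] [Group G] [MulAction G V] (T : SimpleGraph V)
    (v w : V) (hT : T.IsTree) (hact : ∀ (g : G) (x y : V), T.Adj x y → T.Adj (g • x) (g • y))
    (hvw : T.Adj v w) (hinv : ∀ g : G, ¬ (g • v = w ∧ g • w = v))
    (htwo : ∀ g : G, g * g = 1 → (g • v = v ↔ g • w = w)) (k : ℕ)
    (hk : ∀ x y : V, k ≤ T.dist x y → T.dist x y = T.dist x v + T.dist v y →
      T.dist x y = T.dist x w + T.dist w y → (∃ g : G, g • x = y ∧ g • y = x) →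
      SE R G T.dist x y)
    (ε : ℤˣ) (n : ℕ) (ψ μ χ : Matrix (Fin n) (Fin n) (MonoidAlgebra R G))
    (hψ : SuppIn {g | g • v = v ∧ g • w ≠ w} ψ) (hμ : SuppIn {g | g • v = w} μ)
    (hχ : SuppIn {g | g • w = w ∧ g • v ≠ v} χ)
    (hnil : IsNilpotent (nu ε (ψ + (ε : ℤ) • ψᴴ) μ (χ + (ε : ℤ) • χᴴ))) :
    StablyHyperbolic ε (UF ψ μ χ) := by
  have hd : TM G (V := V) T.dist := specFPT G V T hT hact
  have hG := specTRG G V T v w hT hact hvw hinv
  obtain ⟨Yp, Ym, hP⟩ := specTRK G V T v w hT hact hvw hinv htwo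
  refine mMNK R G V T.dist hd _ _ _ _ Yp Ym w v hP hG ?_ ?_ ε n ψ μ χ hψ hμ hχ hnil
  · intro g hg hgg
    have h3 : (g * g) • w = w := hgg.2
    rw [mul_smul] at h3
    have h1 : g • w ∈ DD T.dist w v false := by
      refine hG.mv false true g w ⟨hg.1, hg.2⟩ ?_
      change T.dist v w = T.dist v w + T.dist w w
      rw [(hd.d0 w w).2 rfl, Nat.add_zero]
    refine TreeM.se_of_btw hd hk k w (g • w) h1 ?_ ⟨g, rfl, h3⟩ (Nat.le_add_left _ _)
    change T.dist w (g • w) = T.dist w w + T.dist w (g • w)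
    rw [(hd.d0 w w).2 rfl, Nat.zero_add]
  · intro g hg hgg
    have h3 : (g * g) • v = v := hgg.1
    rw [mul_smul] at h3
    have h1 : g • v ∈ DD T.dist w v true := by
      refine hG.mv true false g v ⟨hg.1, hg.2⟩ ?_
      change T.dist w v = T.dist w v + T.dist v v
      rw [(hd.d0 v v).2 rfl, Nat.add_zero]
    refine TreeM.se_of_btw hd hk k v (g • v) ?_ h1 ⟨g, rfl, h3⟩ (Nat.le_add_left _ _)
    change T.dist v (g • v) = T.dist v v + T.dist v (g • v)
    rw [(hd.d0 v v).2 rfl, Nat.zero_add]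

end Pool.Agent.Lib.MP8a3537.ROW
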