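import Pool.Agent.Lib.MP_8a3537_gt.WAB.Spec
import Pool.Agent.Lib.MP_8a3537_gt.UV.RES

/-!
# Extension of complexes along `R[H] → R[G]`

For a subgroup `H` of `G` the ring `R[G]` is free over `R[H]` on both sides. `xt P` is the complex
`P ⊗ R[G]`; a vector `x` over `R[G]` has the components `lres H t x`, `t ∈ G`.
-/

set_option autoImplicit false

namespace Pool.Agent.Lib.MP8a3537.ROW

open Matrix Pool.Agent.Lib.MP8a3537.UV Pool.Agent.Lib.MP8a3537.AU
open Pool.Agent.Lib.MP8a3537.UO (ext)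

namespace XTM

variable {R G : Type} [Ring R] [Group G] {H : Subgroup G}

/-- The component at `t` of a vector. -/
noncomputable def lv (H : Subgroup G) {n : Type} (t : G) (x : n → MonoidAlgebra R G) :
    n → MonoidAlgebra R H := fun i => lres H t (x i)

theorem lv_ext {n : Type} (x y : n → MonoidAlgebra R G) (h : ∀ t, lv H t x = lv H t y) :
    x = y := by
  funext i
  have h1 : x i - y i = 0 := by
    refine RESAux.eq_zero_of_lres H _ fun t => ?_
    have h2 : lres H t (x i - y i) + lres H t (y i) = lres H t (x i) := by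
      rw [← RESAux.lres_add, sub_add_cancel]
    have h3 : lres H t (x i) = lres H t (y i) := congrFun (h t) i
    rw [h3] at h2
    exact add_eq_right.mp h2
  exact sub_eq_zero.mp h1

theorem lv_zero {n : Type} (t : G) : lv H t (0 : n → MonoidAlgebra R G) = 0 := by
  funext i
  exact RESAux.lres_zero H t

theorem lv_eq_zero {n : Type} (x : n → MonoidAlgebra R G) (h : ∀ t, lv H t x = 0) : x = 0 :=
  lv_ext x 0 fun t => by rw [h t, lv_zero]

theorem lv_add {n : Type} (t : G) (x y : n → MonoidAlgebra R G) :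
    lv H t (x + y) = lv H t x + lv H t y := by
  funext i
  exact RESAux.lres_add H t _ _

theorem lv_sub {n : Type} (t : G) (x y : n → MonoidAlgebra R G) :
    lv H t (x - y) = lv H t x - lv H t y := by
  have h : lv H t (x - y) + lv H t y = lv H t x := by rw [← lv_add, sub_add_cancel]
  rw [← h, add_sub_cancel_right]

theorem lv_mulVec {m n : Type} [Fintype n] (M : Matrix m n (MonoidAlgebra R H)) (t : G)
    (x : n → MonoidAlgebra R G) : lv H t (ext M *ᵥ x) = M *ᵥ lv H t x := by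
  funext i
  change lres H t (∑ j, (MonoidAlgebra.mapDomainRingHom R H.subtype) (M i j) * x j) =
    ∑ j, M i j * lres H t (x j)
  rw [RESAux.lres_sum]
  exact Finset.sum_congr rfl fun j _ => RESAux.lres_emb_mul H t _ _

theorem lres_one_emb (s : MonoidAlgebra R H) : lres H 1 (emb R H s) = s := by
  ext h
  rw [lres_coeff, mul_one]
  exact RESAux.emb_coeff_mem H s h

theorem lv_exv {n : Type} (x : n → MonoidAlgebra R H) : lv H 1 (exv (G := G) x) = x := by
  funext i
  exact lres_one_emb (x i)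

theorem emb_lres_one (y : MonoidAlgebra R G) (h : ∀ g, y.coeff g ≠ 0 → g ∈ H) :
    emb R H (lres H 1 y) = y := by
  ext g
  by_cases hg : g ∈ H
  · have h1 := RESAux.emb_coeff_mem H (lres H 1 y) ⟨g, hg⟩
    rw [lres_coeff, mul_one] at h1
    exact h1
  · rw [RESAux.emb_coeff_not_mem H _ g hg]
    by_contra h0
    exact hg (h g (Ne.symm h0))

theorem emb_inj {s s' : MonoidAlgebra R H} (h : emb R H s = emb R H s') : s = s' := by
  rw [← lres_one_emb (G := G) s, h, lres_one_emb]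

theorem ext_inj {m n : Type} {M N : Matrix m n (MonoidAlgebra R H)}
    (h : ext (G := G) M = ext (G := G) N) : M = N := by
  ext1 i j
  exact emb_inj (congrFun (congrFun h i) j)

theorem ext_mul {l m n : Type} [Fintype m] (M : Matrix l m (MonoidAlgebra R H))
    (N : Matrix m n (MonoidAlgebra R H)) : ext (G := G) (M * N) = ext M * ext N := by
  unfold Pool.Agent.Lib.MP8a3537.UO.ext
  exact Matrix.map_mul

theorem ext_zero {m n : Type} : ext (G := G) (0 : Matrix m n (MonoidAlgebra R H)) = 0 := by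
  unfold Pool.Agent.Lib.MP8a3537.UO.ext
  exact Matrix.map_zero _ (map_zero _)

theorem ext_ne {m n : Type} {M : Matrix m n (MonoidAlgebra R H)} {i : m} {j : n}
    (h : ext (G := G) M i j ≠ 0) : M i j ≠ 0 := by
  intro h0
  apply h
  change (MonoidAlgebra.mapDomainRingHom R H.subtype) (M i j) = 0
  rw [h0, map_zero]

/-- `lres` at `h t`. -/
theorem lres_smul (h : H) (r : G) (y : MonoidAlgebra R G) :
    lres H ((h : G) * r) y = lres H r y * MonoidAlgebra.single h⁻¹ 1 := by
  ext k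
  rw [MonoidAlgebra.coeff_mul_single_apply, mul_one, inv_inv, lres_coeff, lres_coeff]
  congr 1
  rw [Subgroup.coe_mul, mul_assoc]

/-- The components of `emb s · q⁻¹`. -/
theorem lres_emb_single [DecidableEq (G ⧸ H)] (q q0 : G ⧸ H) (s : MonoidAlgebra R H) :
    lres H (q0.out)⁻¹ (emb R H s * MonoidAlgebra.single (q.out)⁻¹ 1) =
      if q = q0 then s else 0 := by
  ext k
  rw [lres_coeff, MonoidAlgebra.coeff_mul_single_apply, mul_one, inv_inv]
  split_ifs with hq
  · subst hq
    rw [inv_mul_cancel_right]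
    exact RESAux.emb_coeff_mem H s k
  · rw [RESAux.emb_coeff_not_mem]
    · rfl
    · intro hm
      apply hq
      have h1 : (q0.out)⁻¹ * q.out ∈ H := by
        have h2 := H.mul_mem (H.inv_mem k.2) hm
        rwa [← mul_assoc, inv_mul_cancel_left] at h2
      rw [← QuotientGroup.out_eq' q, ← QuotientGroup.out_eq' q0]
      exact (QuotientGroup.eq.2 h1).symm

/-- **Assembly of components.** -/
theorem asm {m n : Type} [Fintype m]
    (W : Submodule (MonoidAlgebra R H)ᵐᵒᵖ ((m → MonoidAlgebra R H) × (n → MonoidAlgebra R H)))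
    (x : m → MonoidAlgebra R G) (hW : ∀ t, ∃ y, (lv H t x, y) ∈ W) :
    ∃ y : n → MonoidAlgebra R G, ∀ t, (lv H t x, lv H t y) ∈ W := by
  classical
  obtain ⟨Q, hQ⟩ := RESAux.exists_lcosets H (fun (i : m) (_ : Unit) => x i)
  choose Y hY using fun q : G ⧸ H => hW (q.out)⁻¹
  refine ⟨fun j => ∑ q ∈ Q, emb R H (Y q j) * MonoidAlgebra.single (q.out)⁻¹ 1, fun t => ?_⟩
  have ht : t * ((t⁻¹ : G) : G ⧸ H).out ∈ H := by
    have h1 : (((t⁻¹ : G) : G ⧸ H).out : G ⧸ H) = ((t⁻¹ : G) : G ⧸ H) := QuotientGroup.out_eq' _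
    have h2 := QuotientGroup.eq.1 h1.symm
    rwa [inv_inv] at h2
  set q0 : G ⧸ H := ((t⁻¹ : G) : G ⧸ H) with hq0
  set h : H := ⟨t * q0.out, ht⟩ with hh
  have ht' : t = (h : G) * (q0.out)⁻¹ := by
    rw [hh]
    change t = t * q0.out * (q0.out)⁻¹
    rw [mul_inv_cancel_right]
  have hy : ∀ j, lres H (q0.out)⁻¹ (∑ q ∈ Q, emb R H (Y q j) * MonoidAlgebra.single (q.out)⁻¹ 1)
      = if q0 ∈ Q then Y q0 j else 0 := by
    intro j
    rw [RESAux.lres_sum, Finset.sum_congr rfl fun q _ => lres_emb_single q q0 (Y q j)]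
    rw [Finset.sum_ite_eq']
  by_cases hq : q0 ∈ Q
  · have h1 : (lv H t x, lv H t fun j => ∑ q ∈ Q, emb R H (Y q j) *
        MonoidAlgebra.single (q.out)⁻¹ 1) =
        MulOpposite.op (MonoidAlgebra.single h⁻¹ 1 : MonoidAlgebra R H) •
          (lv H (q0.out)⁻¹ x, Y q0) := by
      refine Prod.ext ?_ ?_
      · funext i
        change lres H t (x i) = lres H (q0.out)⁻¹ (x i) * MonoidAlgebra.single h⁻¹ 1
        rw [ht', lres_smul]
      · funext j
        change lres H t (∑ q ∈ Q, emb R H (Y q j) * MonoidAlgebra.single (q.out)⁻¹ 1) =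
          Y q0 j * MonoidAlgebra.single h⁻¹ 1
        rw [ht', lres_smul, hy, if_pos hq]
    rw [h1]
    exact W.smul_mem _ (hY q0)
  · have hx0 : lv H t x = 0 := by
      funext i
      change lres H t (x i) = 0
      ext k
      rw [lres_coeff]
      by_contra h0
      apply hq
      have h3 := hQ i () _ h0
      have h4 : ((((k : G) * t)⁻¹ : G) : G ⧸ H) = q0 := by
        rw [hq0, QuotientGroup.eq]
        have h5 : ((↑k * t)⁻¹)⁻¹ * t⁻¹ = (k : G) := by group
        rw [h5]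
        exact k.2
      rwa [h4] at h3
    have hy0 : (lv H t fun j => ∑ q ∈ Q, emb R H (Y q j) *
        MonoidAlgebra.single (q.out)⁻¹ 1) = 0 := by
      funext j
      change lres H t (∑ q ∈ Q, emb R H (Y q j) * MonoidAlgebra.single (q.out)⁻¹ 1) = 0
      rw [ht', lres_smul, hy, if_neg hq, zero_mul]
    rw [hx0, hy0]
    exact W.zero_mem

/-- The vectors `z`, `y` with `z - g y ∈ B`. -/
def relW {S : Type} [Ring S] {m n : Type} [Fintype n] (B : Submodule Sᵐᵒᵖ (m → S))
    (g : Matrix m n S) : Submodule Sᵐᵒᵖ ((m → S) × (n → S)) where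
  carrier := {z | z.1 - g *ᵥ z.2 ∈ B}
  zero_mem' := by
    change (0 : m → S) - g *ᵥ 0 ∈ B
    rw [mulVec_zero, sub_zero]
    exact B.zero_mem
  add_mem' := by
    intro a b ha hb
    change a.1 + b.1 - g *ᵥ (a.2 + b.2) ∈ B
    rw [mulVec_add, add_sub_add_comm]
    exact B.add_mem ha hb
  smul_mem' := by
    intro s a ha
    change s • a.1 - g *ᵥ (s • a.2) ∈ B
    rw [mulVec_smul, ← smul_sub]
    exact B.smul_mem s ha

theorem onto_asm {m n : Type} [Fintype m] [Fintype n]
    (B : Submodule (MonoidAlgebra R H)ᵐᵒᵖ (m → MonoidAlgebra R H))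
    (g : Matrix m n (MonoidAlgebra R H)) (x : m → MonoidAlgebra R G)
    (hx : ∀ t, ∃ y, lv H t x - g *ᵥ y ∈ B) :
    ∃ y : n → MonoidAlgebra R G, ∀ t, lv H t (x - ext g *ᵥ y) ∈ B := by
  obtain ⟨y, hy⟩ := asm (relW B g) x hx
  refine ⟨y, fun t => ?_⟩
  rw [lv_sub, lv_mulVec]
  exact hy t

theorem lfv {m n : Type} [Fintype m] [Fintype n] (p : Matrix m n (MonoidAlgebra R H))
    (x : m → MonoidAlgebra R G) (hx : ∀ t, ∃ y, lv H t x = p *ᵥ y) :
    ∃ y : n → MonoidAlgebra R G, x = ext p *ᵥ y := by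
  obtain ⟨y, hy⟩ := onto_asm ⊥ p x (fun t => by
    obtain ⟨y, hy⟩ := hx t
    exact ⟨y, by rw [hy, sub_self]; exact Submodule.zero_mem _⟩)
  refine ⟨y, ?_⟩
  have h1 := lv_eq_zero _ fun t => (Submodule.mem_bot _).1 (hy t)
  exact sub_eq_zero.1 h1

/-! ### Complexes -/

/-- The complex `P ⊗ R[G]`. -/
noncomputable def xt (G : Type) [Group G] {H : Subgroup G} (P : FC (MonoidAlgebra R H)) :
    FC (MonoidAlgebra R G) where
  I := P.I
  deg := P.deg
  d := ext P.d
  hd i j h := P.hd i j (ext_ne h)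
  dd := by rw [← ext_mul, P.dd, ext_zero]

theorem cy_iff {P : FC (MonoidAlgebra R H)} {k : ℤ} {x : P.I → MonoidAlgebra R G} :
    x ∈ (xt G P).Cy k ↔ ∀ t, lv H t x ∈ P.Cy k := by
  constructor
  · rintro ⟨h1, h2⟩ t
    refine ⟨fun i hi => h1 i fun h0 => hi ?_, ?_⟩
    · change lres H t (x i) = 0
      rw [h0, RESAux.lres_zero]
    · rw [← lv_mulVec]
      have h3 : ext (G := G) P.d *ᵥ x = 0 := h2
      rw [h3, lv_zero]
  · intro h
    refine ⟨fun i hi => ?_, ?_⟩
    · by_contra h0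
      apply hi
      refine RESAux.eq_zero_of_lres H _ fun t => ?_
      by_contra h1
      exact h0 ((h t).1 i h1)
    · change ext (G := G) P.d *ᵥ x = 0
      refine lv_eq_zero (H := H) _ fun t => ?_
      rw [lv_mulVec]
      exact (h t).2

theorem bd_iff {P : FC (MonoidAlgebra R H)} {k : ℤ} {x : P.I → MonoidAlgebra R G} :
    x ∈ (xt G P).Bd k ↔ ∀ t, lv H t x ∈ P.Bd k := by
  constructor
  · rintro ⟨h1, y, h2⟩ t
    refine ⟨fun i hi => h1 i fun h0 => hi ?_, lv H t y, ?_⟩
    · change lres H t (x i) = 0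
      rw [h0, RESAux.lres_zero]
    · exact (congrArg (lv H t) h2).trans (lv_mulVec P.d t y)
  · intro h
    refine ⟨fun i hi => ?_, ?_⟩
    · by_contra h0
      apply hi
      refine RESAux.eq_zero_of_lres H _ fun t => ?_
      by_contra h1
      exact h0 ((h t).1 i h1)
    · obtain ⟨y, hy⟩ := lfv P.d x fun t => (h t).2
      exact ⟨y, hy⟩

theorem supp_lv {n : Type} {x : n → MonoidAlgebra R G} {p : n → Prop}
    (h : ∀ i, x i ≠ 0 → p i) (t : G) : ∀ i, lv H t x i ≠ 0 → p i := by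
  intro i hi
  apply h
  intro h0
  apply hi
  change lres H t (x i) = 0
  rw [h0, RESAux.lres_zero]

theorem exBelow {P : FC (MonoidAlgebra R H)} {k : ℤ} (h : P.ExBelow k) : (xt G P).ExBelow k := by
  intro x hx hx0
  refine lfv P.d x fun t => ?_
  refine h (lv H t x) (supp_lv hx t) ?_
  have h3 : ext (G := G) P.d *ᵥ x = 0 := hx0
  exact (lv_mulVec P.d t x).symm.trans (by rw [h3, lv_zero])

theorem exAbove {P : FC (MonoidAlgebra R H)} {k : ℤ} (h : P.ExAbove k) : (xt G P).ExAbove k := by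
  intro x hx hx0
  refine lfv P.d x fun t => ?_
  refine h (lv H t x) (supp_lv hx t) ?_
  have h3 : ext (G := G) P.d *ᵥ x = 0 := hx0
  exact (lv_mulVec P.d t x).symm.trans (by rw [h3, lv_zero])

theorem exBelow_of {P : FC (MonoidAlgebra R H)} {k : ℤ} (h : (xt G P).ExBelow k) :
    P.ExBelow k := by
  intro x hx hx0
  obtain ⟨y, hy⟩ := h (exv x) (fun i hi => hx i fun h0 => hi (by
    change (MonoidAlgebra.mapDomainRingHom R H.subtype) (x i) = 0
    rw [h0, map_zero])) (by
    change ext (G := G) P.d *ᵥ exv x = 0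
    have h1 : ext (G := G) P.d *ᵥ exv x = exv (P.d *ᵥ x) := by
      funext i
      change ∑ j, (MonoidAlgebra.mapDomainRingHom R H.subtype) (P.d i j) *
        (MonoidAlgebra.mapDomainRingHom R H.subtype) (x j) =
        (MonoidAlgebra.mapDomainRingHom R H.subtype) (∑ j, P.d i j * x j)
      rw [map_sum]
      exact Finset.sum_congr rfl fun j _ => (map_mul _ _ _).symm
    rw [h1, hx0]
    funext i
    exact map_zero _)
  refine ⟨lv H 1 y, ?_⟩
  have h2 : lv H 1 (exv (G := G) x) = lv H 1 (ext (G := G) P.d *ᵥ y) := congrArg (lv H 1) hy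
  exact (lv_exv x).symm.trans (h2.trans (lv_mulVec P.d 1 y))

theorem isRes {P : FC (MonoidAlgebra R H)} (h : P.IsRes) : (xt G P).IsRes := ⟨h.1, exBelow h.2⟩

theorem isRes_of {P : FC (MonoidAlgebra R H)} (h : (xt G P).IsRes) : P.IsRes :=
  ⟨h.1, exBelow_of h.2⟩

theorem resolves {Q : FC (MonoidAlgebra R H)} {m : Type} [Fintype m]
    {B Z : Submodule (MonoidAlgebra R H)ᵐᵒᵖ (m → MonoidAlgebra R H)}
    {g : Matrix m Q.I (MonoidAlgebra R H)} (h : Q.Resolves B Z g)
    {B' Z' : Submodule (MonoidAlgebra R G)ᵐᵒᵖ (m → MonoidAlgebra R G)}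
    (hB : ∀ x, x ∈ B' ↔ ∀ t, lv H t x ∈ B) (hZ : ∀ x, x ∈ Z' ↔ ∀ t, lv H t x ∈ Z) :
    (xt G Q).Resolves B' Z' (ext g) where
  res := isRes h.res
  supp i j hij := h.supp i j (ext_ne hij)
  mem y := by
    rw [hZ]
    intro t
    have h1 : lv H t (ext g *ᵥ y) = g *ᵥ lv H t y := lv_mulVec g t y
    exact (congrArg (· ∈ Z) h1).mpr (h.mem _)
  onto z hz := by
    obtain ⟨y, hy⟩ := onto_asm B g z fun t => h.onto _ ((hZ z).1 hz t)
    exact ⟨y, (hB _).2 hy⟩
  im x := by
    rw [hB]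
    intro t
    have h1 : lv H t (ext g *ᵥ (ext (G := G) Q.d *ᵥ x)) = g *ᵥ (Q.d *ᵥ lv H t x) :=
      (lv_mulVec g t _).trans (congrArg (g *ᵥ ·) (lv_mulVec Q.d t x))
    exact (congrArg (· ∈ B) h1).mpr (h.im _)
  ker y hy hy0 := by
    obtain ⟨x, hx⟩ := lfv Q.d y fun t => by
      refine h.ker (lv H t y) (supp_lv hy t) ?_
      have h1 : lv H t (ext g *ᵥ y) = g *ᵥ lv H t y := lv_mulVec g t y
      exact (congrArg (· ∈ B) h1).mp ((hB _).1 hy0 t)
    exact ⟨x, hx⟩

/-- A complex whose differential is supported in `H` comes from `H`. -/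
theorem exists_xt (P : FC (MonoidAlgebra R G)) (h : ∀ i j g, (P.d i j).coeff g ≠ 0 → g ∈ H) :
    ∃ P0 : FC (MonoidAlgebra R H), P = xt G P0 := by
  obtain ⟨I, deg, d, hd, dd⟩ := P
  have hd0 : ext (G := G) (H := H) (d.map (lres H 1)) = d := by
    ext1 i j
    exact emb_lres_one _ (h i j)
  refine ⟨⟨I, deg, d.map (lres H 1), ?_, ?_⟩, ?_⟩
  · intro i j hij
    refine hd i j fun h0 => hij ?_
    change lres H 1 (d i j) = 0
    rw [h0, RESAux.lres_zero]
  · apply ext_inj (G := G)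
    rw [ext_mul, hd0, dd, ext_zero]
  · unfold xt
    congr 1
    exact hd0.symm

end XTM

section Star

variable {R G : Type} [Ring R] [StarRing R] [Group G] {H : Subgroup G}

theorem XTM.ext_star {m n : Type} (M : Matrix m n (MonoidAlgebra R H)) :
    (ext (G := G) M)ᴴ = ext Mᴴ := by
  ext1 i j
  change star (emb R H (M j i)) = emb R H (star (M j i))
  ext g
  rw [star_coeff]
  by_cases hg : g ∈ H
  · have h1 := RESAux.emb_coeff_mem (G := G) H (star (M j i)) ⟨g, hg⟩
    have h2 := RESAux.emb_coeff_mem (G := G) H (M j i) ⟨g⁻¹, H.inv_mem hg⟩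
    rw [h1, star_coeff]
    rw [h2]
    rfl
  · rw [RESAux.emb_coeff_not_mem H _ g hg, RESAux.emb_coeff_not_mem H _ g⁻¹, star_zero]
    intro h0
    exact hg (by simpa using H.inv_mem h0)

theorem XTM.dual_xt (P : FC (MonoidAlgebra R H)) : (XTM.xt G P).dual = XTM.xt G P.dual := by
  unfold XTM.xt FC.dual
  congr 1
  exact XTM.ext_star P.d

end Star

end Pool.Agent.Lib.MP8a3537.ROW
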